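import Pool.Agent.N561.A.Stm

/-!
# The inverse of the Gudermannian function, and star-shaped primitives
-/

set_option autoImplicit false

namespace Pool.Agent.N218.VS

open Pool.Agent.N561 Pool.Agent.W711.HT
open Filter Topology MeasureTheory Set
open scoped Real

/-- the quotient under the logarithm -/
noncomputable def qq (w : ℂ) : ℂ := (1 + Complex.sin w) / Complex.cos w

theorem cosre (w : ℂ) : (Complex.cos w).re = Real.cos w.re * Real.cosh w.im := by
  conv_lhs => rw [Complex.cos_eq]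
  simp [← Complex.ofReal_cos, ← Complex.ofReal_sin, ← Complex.ofReal_cosh, ← Complex.ofReal_sinh]

theorem cosim (w : ℂ) : (Complex.cos w).im = -(Real.sin w.re * Real.sinh w.im) := by
  conv_lhs => rw [Complex.cos_eq]
  simp [← Complex.ofReal_cos, ← Complex.ofReal_sin, ← Complex.ofReal_cosh, ← Complex.ofReal_sinh]

theorem sinre (w : ℂ) : (Complex.sin w).re = Real.sin w.re * Real.cosh w.im := by
  conv_lhs => rw [Complex.sin_eq]
  simp [← Complex.ofReal_cos, ← Complex.ofReal_sin, ← Complex.ofReal_cosh, ← Complex.ofReal_sinh]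

theorem sinim (w : ℂ) : (Complex.sin w).im = Real.cos w.re * Real.sinh w.im := by
  conv_lhs => rw [Complex.sin_eq]
  simp [← Complex.ofReal_cos, ← Complex.ofReal_sin, ← Complex.ofReal_cosh, ← Complex.ofReal_sinh]

theorem cos_ne {w : ℂ} (h : |w.re| < π / 2) : Complex.cos w ≠ 0 := by
  intro h0
  have h1 := congrArg Complex.re h0
  rw [cosre, Complex.zero_re] at h1
  have h2 : 0 < Real.cos w.re := Real.cos_pos_of_mem_Ioo ⟨by linarith [(abs_lt.mp h).1], (abs_lt.mp h).2⟩
  have h3 := Real.cosh_pos w.im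
  have := mul_pos h2 h3
  linarith

theorem cospos {w : ℂ} (h : |w.re| < π / 2) : 0 < Real.cos w.re :=
  Real.cos_pos_of_mem_Ioo ⟨by linarith [(abs_lt.mp h).1], (abs_lt.mp h).2⟩

theorem sinlt {x : ℝ} (h : |x| < π / 2) : |Real.sin x| < 1 := by
  have h2 : 0 < Real.cos x := Real.cos_pos_of_mem_Ioo ⟨by linarith [(abs_lt.mp h).1], (abs_lt.mp h).2⟩
  have h3 := Real.sin_sq_add_cos_sq x
  rw [← sq_lt_one_iff_abs_lt_one]
  nlinarith [pow_pos h2 2]

theorem den_pos {w : ℂ} (h : |w.re| < π / 2) : 0 < Real.cosh w.im - Real.sin w.re := by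
  have h1 := abs_lt.mp (sinlt h)
  have := Real.one_le_cosh w.im
  linarith

theorem num_pos {w : ℂ} (h : |w.re| < π / 2) : 0 < Real.cosh w.im + Real.sin w.re := by
  have h1 := abs_lt.mp (sinlt h)
  have := Real.one_le_cosh w.im
  linarith

theorem qq_eq {w : ℂ} (h : |w.re| < π / 2) :
    qq w = ((Real.cos w.re / (Real.cosh w.im - Real.sin w.re) : ℝ) : ℂ) +
      ((Real.sinh w.im / (Real.cosh w.im - Real.sin w.re) : ℝ) : ℂ) * Complex.I := by
  have h1 := cos_ne h
  have h2 := (den_pos h).ne'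
  have hc := Real.cosh_sq w.im
  have hs := Real.sin_sq_add_cos_sq w.re
  unfold qq
  rw [div_eq_iff h1]
  have e : ((Real.cos w.re / (Real.cosh w.im - Real.sin w.re) : ℝ) : ℂ) +
      ((Real.sinh w.im / (Real.cosh w.im - Real.sin w.re) : ℝ) : ℂ) * Complex.I =
      (((Real.cosh w.im - Real.sin w.re)⁻¹ : ℝ) : ℂ) * (Real.cos w.re + Real.sinh w.im * Complex.I) := by
    push_cast
    ring
  rw [e]
  have h3 : (((Real.cosh w.im - Real.sin w.re) : ℝ) : ℂ) ≠ 0 := by exact_mod_cast h2
  have h4 : (((Real.cosh w.im - Real.sin w.re) : ℝ) : ℂ) * (1 + Complex.sin w) =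
      (Real.cos w.re + Real.sinh w.im * Complex.I) * Complex.cos w := by
    apply Complex.ext
    · simp only [Complex.mul_re, Complex.add_re, Complex.add_im, Complex.one_re, Complex.one_im,
        Complex.ofReal_re, Complex.ofReal_im, Complex.mul_im, Complex.I_re, Complex.I_im, cosre,
        cosim, sinre, sinim]
      linear_combination (-Real.cosh w.im) * hs + Real.sin w.re * hc
    · simp only [Complex.mul_re, Complex.add_re, Complex.add_im, Complex.one_re, Complex.one_im,
        Complex.ofReal_re, Complex.ofReal_im, Complex.mul_im, Complex.I_re, Complex.I_im, cosre,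
        cosim, sinre, sinim]
      ring
  rw [mul_assoc, ← h4]
  push_cast
  push_cast at h3
  field_simp

theorem qq_re {w : ℂ} (h : |w.re| < π / 2) :
    (qq w).re = Real.cos w.re / (Real.cosh w.im - Real.sin w.re) := by
  rw [qq_eq h, Complex.add_re, Complex.re_ofReal_mul, Complex.ofReal_re, Complex.I_re]; ring

theorem qq_im {w : ℂ} (h : |w.re| < π / 2) :
    (qq w).im = Real.sinh w.im / (Real.cosh w.im - Real.sin w.re) := by
  rw [qq_eq h, Complex.add_im, Complex.im_ofReal_mul, Complex.ofReal_im, Complex.I_im]; ring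

theorem qq_re_pos {w : ℂ} (h : |w.re| < π / 2) : 0 < (qq w).re := by
  rw [qq_re h]
  exact div_pos (cospos h) (den_pos h)

theorem qq_slit {w : ℂ} (h : |w.re| < π / 2) : qq w ∈ Complex.slitPlane := Or.inl (qq_re_pos h)

theorem gdi_eq (w : ℂ) : gdi w = Complex.log (qq w) := rfl

theorem gdi_der {w : ℂ} (h : |w.re| < π / 2) : HasDerivAt gdi (1 / Complex.cos w) w := by
  have h1 := cos_ne h
  have hq : HasDerivAt qq ((Complex.cos w * Complex.cos w - (1 + Complex.sin w) * (-Complex.sin w)) /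
      Complex.cos w ^ 2) w :=
    ((Complex.hasDerivAt_sin w).const_add 1).div (Complex.hasDerivAt_cos w) h1
  have h2 : HasDerivAt gdi (((Complex.cos w * Complex.cos w - (1 + Complex.sin w) * (-Complex.sin w)) /
      Complex.cos w ^ 2) / qq w) w := hq.clog (qq_slit h)
  convert h2 using 1
  have h3 : 1 + Complex.sin w ≠ 0 := by
    intro h0
    have h4 : qq w = 0 := by unfold qq; rw [h0, zero_div]
    have h5 := qq_re_pos h
    rw [h4] at h5
    simp at h5
  unfold qq
  have h6 : Complex.cos w * Complex.cos w - (1 + Complex.sin w) * (-Complex.sin w) =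
      1 + Complex.sin w := by
    linear_combination Complex.sin_sq_add_cos_sq w
  rw [h6]
  field_simp

theorem arg_arctan {z : ℂ} (h : 0 < z.re) : z.arg = Real.arctan (z.im / z.re) := by
  have h1 : |z.arg| < π / 2 := Complex.abs_arg_lt_pi_div_two_iff.mpr (Or.inl h)
  rw [← Complex.tan_arg, Real.arctan_tan]
  · linarith [(abs_lt.mp h1).1]
  · exact (abs_lt.mp h1).2

theorem gdi_im {w : ℂ} (h : |w.re| < π / 2) :
    (gdi w).im = Real.arctan (Real.sinh w.im / Real.cos w.re) := by
  rw [gdi_eq, Complex.log_im, arg_arctan (qq_re_pos h), qq_re h, qq_im h]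
  congr 1
  have := (den_pos h).ne'
  have := (cospos h).ne'
  field_simp

theorem gdi_re {w : ℂ} (h : |w.re| < π / 2) :
    (gdi w).re = Real.artanh (Real.sin w.re / Real.cosh w.im) := by
  have hd := den_pos h
  have hn := num_pos h
  have hc := Real.cosh_pos w.im
  have hr : Real.sin w.re / Real.cosh w.im ∈ Icc (-1 : ℝ) 1 := by
    constructor
    · rw [le_div_iff₀ hc]; linarith
    · rw [div_le_iff₀ hc]; linarith
  rw [Real.artanh_eq_half_log hr, gdi_eq, Complex.log_re]
  have h1 : ‖qq w‖ ^ 2 = (Real.cosh w.im + Real.sin w.re) / (Real.cosh w.im - Real.sin w.re) := by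
    rw [← Complex.normSq_eq_norm_sq, Complex.normSq_apply, qq_re h, qq_im h]
    have hc := Real.cosh_sq w.im
    have hs := Real.sin_sq_add_cos_sq w.re
    field_simp
    nlinarith
  have h2 : (1 + Real.sin w.re / Real.cosh w.im) / (1 - Real.sin w.re / Real.cosh w.im) =
      (Real.cosh w.im + Real.sin w.re) / (Real.cosh w.im - Real.sin w.re) := by
    have : (1 - Real.sin w.re / Real.cosh w.im) ≠ 0 := by
      have : 1 - Real.sin w.re / Real.cosh w.im = (Real.cosh w.im - Real.sin w.re) / Real.cosh w.im := by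
        field_simp
      rw [this]
      exact (div_pos hd hc).ne'
    rw [div_eq_div_iff this hd.ne']
    field_simp
  rw [h2, ← h1, Real.log_pow]
  push_cast
  ring

theorem gdi_odd {w : ℂ} (h : |w.re| < π / 2) : gdi (-w) = -gdi w := by
  have h' : |(-w).re| < π / 2 := by rwa [Complex.neg_re, abs_neg]
  apply Complex.ext
  · rw [Complex.neg_re, gdi_re h', gdi_re h]
    rw [Complex.neg_re, Complex.neg_im, Real.sin_neg, Real.cosh_neg, neg_div]
    have hd := den_pos h
    have hn := num_pos h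
    have hc := Real.cosh_pos w.im
    have h1 : -1 ≤ Real.sin w.re / Real.cosh w.im := by
      rw [le_div_iff₀ hc]; linarith
    have h2 : Real.sin w.re / Real.cosh w.im ≤ 1 := by
      rw [div_le_iff₀ hc]; linarith
    rw [Real.artanh_eq_half_log ⟨h1, h2⟩, Real.artanh_eq_half_log ⟨by linarith, by linarith⟩,
      ← mul_neg, ← Real.log_inv, inv_div]
    congr 3
    ring
  · rw [Complex.neg_im, gdi_im h', gdi_im h]
    rw [Complex.neg_re, Complex.neg_im, Real.cos_neg, Real.sinh_neg, neg_div, Real.arctan_neg]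

theorem gdi_real {x : ℝ} (h : |x| < π / 2) :
    gdi x = (Real.log ((1 + Real.sin x) / Real.cos x) : ℝ) := by
  have h2 : 0 < Real.cos x := cospos (w := x) (by simpa using h)
  have h3 := abs_lt.mp (sinlt h)
  rw [Complex.ofReal_log (by apply div_nonneg <;> linarith)]
  unfold gdi
  push_cast
  rfl

/-- star primitive -/
theorem star_prim {U : Set ℂ} (hU : IsOpen U)
    (hs : ∀ z ∈ U, ∀ t : ℝ, 0 ≤ t → t ≤ 1 → (t : ℂ) * z ∈ U)
    {f : ℂ → ℂ} (hf : DifferentiableOn ℂ f U) {z : ℂ} (hz : z ∈ U) :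
    HasDerivAt (fun w => w * ∫ t in (0:ℝ)..1, f (t * w)) (f z) z := by
  have hfd : ∀ w ∈ U, HasDerivAt f (deriv f w) w := fun w hw =>
    (hf.differentiableAt (hU.mem_nhds hw)).hasDerivAt
  have hdc : ContinuousOn (deriv f) U := (hf.deriv hU).continuousOn
  obtain ⟨ε, hε, hb⟩ := Metric.nhds_basis_closedBall.mem_iff.mp (hU.mem_nhds hz)
  have hK : IsCompact ((fun p : ℝ × ℂ => (p.1 : ℂ) * p.2) '' (Icc (0:ℝ) 1 ×ˢ Metric.closedBall z ε)) :=
    (isCompact_Icc.prod (isCompact_closedBall z ε)).image (by fun_prop)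
  have hKU : ((fun p : ℝ × ℂ => (p.1 : ℂ) * p.2) '' (Icc (0:ℝ) 1 ×ˢ Metric.closedBall z ε)) ⊆ U := by
    rintro _ ⟨⟨t, w⟩, ⟨ht, hw⟩, rfl⟩
    exact hs w (hb hw) t ht.1 ht.2
  obtain ⟨C, hC⟩ := hK.exists_bound_of_continuousOn (hdc.mono hKU)
  have hcont : ∀ w ∈ U, ContinuousOn (fun t : ℝ => f (t * w)) (uIcc 0 1) := by
    intro w hw
    rw [uIcc_of_le zero_le_one]
    exact hf.continuousOn.comp (by fun_prop) (fun t ht => hs w hw t ht.1 ht.2)
  have hcont' : ∀ w ∈ U, ContinuousOn (fun t : ℝ => (t : ℂ) * deriv f (t * w)) (uIcc 0 1) := by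
    intro w hw
    rw [uIcc_of_le zero_le_one]
    exact ContinuousOn.mul (by fun_prop) (hdc.comp (by fun_prop) (fun t ht => hs w hw t ht.1 ht.2))
  have key := intervalIntegral.hasDerivAt_integral_of_dominated_loc_of_deriv_le
    (μ := volume) (a := 0) (b := 1) (F := fun (w : ℂ) (t : ℝ) => f (t * w))
    (F' := fun (w : ℂ) (t : ℝ) => (t : ℂ) * deriv f (t * w)) (x₀ := z) (s := Metric.closedBall z ε)
    (bound := fun _ => C) (Metric.closedBall_mem_nhds z hε)
    (by
      filter_upwards [hU.mem_nhds hz] with w hw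
      exact ((hcont w hw).mono uIoc_subset_uIcc).aestronglyMeasurable measurableSet_uIoc)
    ((hcont z hz).intervalIntegrable)
    (((hcont' z hz).mono uIoc_subset_uIcc).aestronglyMeasurable measurableSet_uIoc)
    (by
      refine Eventually.of_forall fun t ht w hw => ?_
      rw [uIoc_of_le zero_le_one] at ht
      rw [norm_mul, Complex.norm_real, Real.norm_eq_abs, abs_of_pos ht.1]
      have h1 := hC _ ⟨(t, w), ⟨⟨ht.1.le, ht.2⟩, hw⟩, rfl⟩
      calc t * ‖deriv f (t * w)‖ ≤ 1 * C := by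
            apply mul_le_mul ht.2 h1 (norm_nonneg _) zero_le_one
        _ = C := one_mul C)
    intervalIntegrable_const
    (by
      refine Eventually.of_forall fun t ht w hw => ?_
      rw [uIoc_of_le zero_le_one] at ht
      have h1 := hfd _ (hs w (hb hw) t ht.1.le ht.2)
      have h2 : HasDerivAt (fun w : ℂ => (t : ℂ) * w) (t : ℂ) w := by
        simpa using (hasDerivAt_id w).const_mul (t : ℂ)
      have h3 := h1.comp w h2
      rw [mul_comm] at h3
      exact h3)
  have h2 : HasDerivAt (fun w => w * ∫ t in (0:ℝ)..1, f (t * w))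
      (1 * (∫ t in (0:ℝ)..1, f (t * z)) + z * ∫ t in (0:ℝ)..1, (t : ℂ) * deriv f (t * z)) z :=
    (hasDerivAt_id z).mul key.2
  refine h2.congr_deriv ?_
  have h3 : ∀ t ∈ uIcc (0:ℝ) 1, HasDerivAt (fun t : ℝ => (t : ℂ) * f (t * z))
      (f (t * z) + z * ((t : ℂ) * deriv f (t * z))) t := by
    intro t ht
    rw [uIcc_of_le zero_le_one] at ht
    have h1 := hfd _ (hs z hz t ht.1 ht.2)
    have h6 : HasDerivAt (fun t : ℝ => (t : ℂ)) 1 t := (hasDerivAt_id t).ofReal_comp
    have h4 : HasDerivAt (fun t : ℝ => (t : ℂ) * z) (1 * z) t := h6.mul_const z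
    have h5 : HasDerivAt (fun t : ℝ => f (t * z)) (deriv f (t * z) * (1 * z)) t := h1.comp t h4
    have h7 := h6.mul h5
    refine h7.congr_deriv ?_
    ring
  have i1 : IntervalIntegrable (fun t : ℝ => f (t * z)) volume 0 1 := (hcont z hz).intervalIntegrable
  have i2 : IntervalIntegrable (fun t : ℝ => z * ((t : ℂ) * deriv f (t * z))) volume 0 1 :=
    (continuousOn_const.mul (hcont' z hz)).intervalIntegrable
  have h4 := intervalIntegral.integral_eq_sub_of_hasDerivAt h3 (i1.add i2)
  rw [intervalIntegral.integral_add i1 i2, intervalIntegral.integral_const_mul] at h4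
  rw [one_mul, h4]
  simp

end Pool.Agent.N218.VS
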