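import Pool.Agent.N218.VS.Gdi

/-!
# The function `sf`
-/

set_option autoImplicit false

namespace Pool.Agent.N218.VS

open Pool.Agent.N561 Pool.Agent.W711.HT
open Filter Topology MeasureTheory Set
open scoped Real

/-- the strip -/
def StU (a : ℝ) : Set ℂ := {w | |w.re| < a}

theorem StU_open (a : ℝ) : IsOpen (StU a) :=
  isOpen_lt (continuous_abs.comp Complex.continuous_re) continuous_const

theorem StU_star (a : ℝ) : ∀ z ∈ StU a, ∀ t : ℝ, 0 ≤ t → t ≤ 1 → (t : ℂ) * z ∈ StU a := by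
  intro z hz t ht ht1
  have hz : |z.re| < a := hz
  show |((t : ℂ) * z).re| < a
  rw [Complex.re_ofReal_mul, abs_mul, abs_of_nonneg ht]
  have := abs_nonneg z.re
  nlinarith

theorem gdi_diff : DifferentiableOn ℂ gdi (StU (π / 2)) := fun _ hw =>
  (gdi_der hw).differentiableAt.differentiableWithinAt

/-- the primitive of `gdi` -/
noncomputable def PG (w : ℂ) : ℂ := w * ∫ t in (0:ℝ)..1, gdi (t * w)

theorem PG_der {w : ℂ} (h : |w.re| < π / 2) : HasDerivAt PG (gdi w) w :=
  star_prim (StU_open _) (StU_star _) gdi_diff h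

theorem sf_eq (φ : ℂ) : sf φ = (2 * bet : ℝ) - 2 / π * PG (φ / 2) := by
  unfold sf PG
  have : ∀ t : ℝ, (t : ℂ) * φ / 2 = t * (φ / 2) := fun t => by ring
  simp_rw [this]
  ring

theorem half_re {φ : ℂ} (h : |φ.re| < π) : |(φ / 2).re| < π / 2 := by
  have : (φ / 2).re = φ.re / 2 := by
    rw [show (φ / 2 : ℂ) = φ / ((2 : ℝ) : ℂ) by norm_num, Complex.div_ofReal_re]
  rw [this, abs_div, abs_of_pos (by norm_num : (0:ℝ) < 2)]
  linarith

theorem sf_der {φ : ℂ} (h : |φ.re| < π) : HasDerivAt sf (-(1 / π) * gdi (φ / 2)) φ := by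
  have h1 := PG_der (half_re h)
  have h2 : HasDerivAt (fun z : ℂ => z / 2) (1 / 2) φ := (hasDerivAt_id φ).div_const 2
  have h3 : HasDerivAt (fun z : ℂ => PG (z / 2)) (gdi (φ / 2) * (1 / 2)) φ :=
    HasDerivAt.comp (h₂ := PG) (h := fun z : ℂ => z / 2) φ h1 h2
  have h4 : HasDerivAt (fun z : ℂ => ((2 * bet : ℝ) : ℂ) - 2 / π * PG (z / 2))
      (-(2 / π * (gdi (φ / 2) * (1 / 2)))) φ := (h3.const_mul (2 / π : ℂ)).const_sub _
  have h5 : sf = fun z : ℂ => ((2 * bet : ℝ) : ℂ) - 2 / π * PG (z / 2) := funext sf_eq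
  rw [h5]
  refine h4.congr_deriv ?_
  ring

theorem PG_even {w : ℂ} (h : |w.re| < π / 2) : PG (-w) = PG w := by
  unfold PG
  have : ∫ t in (0:ℝ)..1, gdi (t * -w) = ∫ t in (0:ℝ)..1, -gdi (t * w) := by
    apply intervalIntegral.integral_congr
    intro t ht
    rw [uIcc_of_le zero_le_one] at ht
    show gdi (t * -w) = -gdi (t * w)
    rw [mul_neg, gdi_odd (StU_star _ w h t ht.1 ht.2)]
  rw [this, intervalIntegral.integral_neg]
  ring

theorem sf_even {φ : ℂ} (h : |φ.re| < π) : sf (-φ) = sf φ := by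
  rw [sf_eq, sf_eq, neg_div, PG_even (half_re h)]

/-- the real function -/
noncomputable def gr (t : ℝ) : ℝ := Real.log ((1 + Real.sin t) / Real.cos t)

theorem gdi_gr {x : ℝ} (h : |x| < π / 2) : gdi x = (gr x : ℝ) := gdi_real h

theorem sf_real {x : ℝ} (h : |x| < π) : sf x = sx x := by
  have hx : |x / 2| < π / 2 := by
    rw [abs_div, abs_of_pos (by norm_num : (0:ℝ) < 2)]; linarith
  have h1 : PG ((x / 2 : ℝ) : ℂ) = ((∫ t in (0:ℝ)..(x / 2), gr t : ℝ) : ℂ) := by
    unfold PG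
    have e : ∫ t in (0:ℝ)..1, gdi (t * ((x / 2 : ℝ) : ℂ)) =
        ((∫ t in (0:ℝ)..1, gr (t * (x / 2)) : ℝ) : ℂ) := by
      rw [← intervalIntegral.integral_ofReal]
      apply intervalIntegral.integral_congr
      intro t ht
      rw [uIcc_of_le zero_le_one] at ht
      show gdi (t * ((x / 2 : ℝ) : ℂ)) = (gr (t * (x / 2)) : ℂ)
      rw [← Complex.ofReal_mul, gdi_gr]
      rw [abs_mul, abs_of_nonneg ht.1]
      have := abs_nonneg (x / 2)
      nlinarith [ht.2]
    rw [e, ← Complex.ofReal_mul]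
    congr 1
    have := intervalIntegral.mul_integral_comp_mul_right (a := 0) (b := 1) (f := gr) (x / 2)
    rw [this]
    simp
  rw [sf_eq, show ((x : ℂ) / 2) = ((x / 2 : ℝ) : ℂ) by push_cast; ring, h1]
  unfold sx gr
  push_cast
  ring

theorem sx_der {x : ℝ} (h : |x| < π) : HasDerivAt sx (-(1 / π) * gr (x / 2)) x := by
  have h1 : HasDerivAt sf (-(1 / π) * gdi ((x : ℂ) / 2)) (x : ℂ) := sf_der (by simpa using h)
  have h2 := h1.real_of_complex
  have h3 : (fun x : ℝ => (sf x).re) =ᶠ[𝓝 x] sx := by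
    have : {y : ℝ | |y| < π} ∈ 𝓝 x := (isOpen_lt continuous_abs continuous_const).mem_nhds h
    filter_upwards [this] with y hy
    rw [sf_real hy, Complex.ofReal_re]
  have h4 := h2.congr_of_eventuallyEq h3.symm
  refine h4.congr_deriv ?_
  have hx : |x / 2| < π / 2 := by
    rw [abs_div, abs_of_pos (by norm_num : (0:ℝ) < 2)]; linarith
  rw [show ((x : ℂ) / 2) = ((x / 2 : ℝ) : ℂ) by push_cast; ring, gdi_gr hx]
  rw [show (-(1 / (π : ℂ)) * ((gr (x / 2) : ℝ) : ℂ)) = ((-(1 / π) * gr (x / 2) : ℝ) : ℂ) by push_cast; ring]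
  rw [Complex.ofReal_re]

theorem at_cont (X : ℝ) : Continuous fun y : ℝ => Real.arctan (Real.sinh (y / 2) / Real.cos (X / 2)) := by
  fun_prop

theorem sf_re {φ : ℂ} (h : |φ.re| < π) : (sf φ).re = sx φ.re +
      1 / π * ∫ y in (0:ℝ)..φ.im, Real.arctan (Real.sinh (y / 2) / Real.cos (φ.re / 2)) := by
  set X := φ.re with hX
  have hd : ∀ y : ℝ, HasDerivAt (fun y : ℝ => (sf (X + y * Complex.I)).re)
      (1 / π * Real.arctan (Real.sinh (y / 2) / Real.cos (X / 2))) y := by
    intro y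
    have hp : |((X : ℂ) + y * Complex.I).re| < π := by simpa using h
    have h1 := sf_der hp
    have h2 : HasDerivAt (fun y : ℝ => (X : ℂ) + y * Complex.I) (1 * Complex.I) y :=
      ((hasDerivAt_id y).ofReal_comp.mul_const Complex.I).const_add (X : ℂ)
    have h3 := h1.comp y h2
    have h4 : HasDerivAt (fun y : ℝ => (sf (X + y * Complex.I)).re)
      ((-(1 / π) * gdi (((X : ℂ) + y * Complex.I) / 2) * (1 * Complex.I)).re) y := by
      have := (Complex.reCLM.hasFDerivAt).comp_hasDerivAt y h3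
      exact this
    refine h4.congr_deriv ?_
    have h5 := gdi_im (half_re hp)
    have e1 : (((X : ℂ) + y * Complex.I) / 2).im = y / 2 := by
      rw [show (((X : ℂ) + y * Complex.I) / 2) = ((X / 2 : ℝ) : ℂ) + ((y / 2 : ℝ) : ℂ) * Complex.I by
        push_cast; ring]
      simp
    have e2 : (((X : ℂ) + y * Complex.I) / 2).re = X / 2 := by
      rw [show (((X : ℂ) + y * Complex.I) / 2) = ((X / 2 : ℝ) : ℂ) + ((y / 2 : ℝ) : ℂ) * Complex.I by
        push_cast; ring]
      simp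
    rw [e1, e2] at h5
    rw [← h5]
    rw [show (-(1 / (π : ℂ))) = ((-(1 / π) : ℝ) : ℂ) by push_cast; ring]
    rw [one_mul, mul_assoc, Complex.re_ofReal_mul, Complex.mul_I_re]
    ring
  have h1 := intervalIntegral.integral_eq_sub_of_hasDerivAt (a := 0) (b := φ.im)
    (fun y _ => hd y) ((continuous_const.mul (at_cont X)).intervalIntegrable _ _)
  rw [intervalIntegral.integral_const_mul] at h1
  rw [h1]
  have e3 : sf (X + ((0 : ℝ) : ℂ) * Complex.I) = sx X := by
    rw [Complex.ofReal_zero, zero_mul, add_zero, sf_real h]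
  have e4 : (X : ℂ) + φ.im * Complex.I = φ := by
    rw [hX]; exact Complex.re_add_im φ
  rw [e3, e4, Complex.ofReal_re]
  ring

end Pool.Agent.N218.VS
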