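import Pool.Agent.N218.VS.Sf

/-!
# The potential for `ψ = 0`
-/

set_option autoImplicit false

namespace Pool.Agent.N218.VS

open Pool.Agent.N561 Pool.Agent.W711.HT
open Filter Topology MeasureTheory Set
open scoped Real

theorem dst0 (φ : ℂ) : dst 0 φ = 1 / π * Complex.arctan (Complex.cos (φ / 2)) := by
  unfold dst
  simp

theorem GG_pi {φ : ℂ} (h : φ ∈ GG) : |φ.re| < π := by
  have h1 := h.1
  have := Real.pi_gt_three
  linarith

theorem Lg0 {φ : ℂ} (h : |φ.re| < π) : Lg (2 * π * dst 0 φ) φ = 2 * gdi (φ / 2) := by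
  have hh := half_re h
  set t := φ / 2 with ht
  have hc : 0 < (Complex.cos t).re := by
    rw [cosre]; exact mul_pos (cospos hh) (Real.cosh_pos _)
  have hI1 : Complex.cos t ≠ Complex.I := by
    intro h0; rw [h0] at hc; simp at hc
  have hI2 : Complex.cos t ≠ -Complex.I := by
    intro h0; rw [h0] at hc; simp at hc
  have hc0 : Complex.cos t ≠ 0 := by
    intro h0; rw [h0] at hc; simp at hc
  have htan := Complex.tan_arctan hI1 hI2
  set A := Complex.arctan (Complex.cos t) with hA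
  have hcA : Complex.cos A ≠ 0 := by
    intro h0
    rw [Complex.tan, h0, div_zero] at htan
    exact hc0 htan.symm
  have hsA : Complex.sin A = Complex.cos t * Complex.cos A := by
    rw [Complex.tan, div_eq_iff hcA] at htan
    exact htan
  have hpi : (π : ℂ) ≠ 0 := by exact_mod_cast Real.pi_ne_zero
  have e1 : (2 * π * dst 0 φ - φ) / 2 = A - t := by
    rw [dst0, ← ht, ← hA, ht]; field_simp
  have e2 : (2 * π * dst 0 φ + φ) / 2 = A + t := by
    rw [dst0, ← ht, ← hA, ht]; field_simp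
  have hs1 : 1 + Complex.sin t ≠ 0 := by
    intro h0
    have h4 : qq t = 0 := by unfold qq; rw [h0, zero_div]
    have h5 := qq_re_pos hh
    rw [h4] at h5
    simp at h5
  have hsc := Complex.sin_sq_add_cos_sq t
  have hs2 : 1 - Complex.sin t ≠ 0 := by
    intro h0
    have : Complex.cos t ^ 2 = 0 := by linear_combination hsc + (1 + Complex.sin t) * h0
    exact hc0 (pow_eq_zero_iff two_ne_zero |>.mp this)
  have e3 : Complex.cos (A - t) / Complex.cos (A + t) = qq t ^ 2 := by
    have a1 : Complex.cos (A - t) = Complex.cos A * Complex.cos t * (1 + Complex.sin t) := by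
      rw [Complex.cos_sub, hsA]; ring
    have a2 : Complex.cos (A + t) = Complex.cos A * Complex.cos t * (1 - Complex.sin t) := by
      rw [Complex.cos_add, hsA]; ring
    rw [a1, a2]
    unfold qq
    rw [mul_div_mul_left _ _ (mul_ne_zero hcA hc0), div_pow, div_eq_div_iff hs2 (pow_ne_zero 2 hc0)]
    linear_combination (1 + Complex.sin t) * hsc
  have hq0 : qq t ≠ 0 := by
    intro h4
    have h5 := qq_re_pos hh
    rw [h4] at h5
    simp at h5
  have him : |(qq t).arg| < π / 2 := Complex.abs_arg_lt_pi_div_two_iff.mpr (Or.inl (qq_re_pos hh))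
  have him := abs_lt.mp him
  unfold Lg
  rw [e1, e2, e3, gdi_eq]
  have e4 : qq t ^ 2 = Complex.exp (2 * Complex.log (qq t)) := by
    rw [two_mul, Complex.exp_add, Complex.exp_log hq0]; ring
  have e5 : (2 * Complex.log (qq t)).im = 2 * (qq t).arg := by
    simp [Complex.mul_im, Complex.log_im]
  rw [e4, Complex.log_exp]
  · rw [e5]; linarith
  · rw [e5]; linarith

theorem zero_mem_Rc {r : ℝ} (h : 0 < r) : (0 : ℂ) ∈ Rc r r := by
  simp [Rc, h]

theorem sg0_der (h : S_SGP) {φ : ℂ} (hφ : φ ∈ GG) :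
    HasDerivAt (fun z => sg 0 z) (-(1 / π) * gdi (φ / 2)) φ := by
  obtain ⟨r, c, C, H⟩ := h φ hφ
  have h1 := H.sder2 0 (zero_mem_Rc H.hr.1) φ (Metric.mem_ball_self H.hr.1)
  refine h1.congr_deriv ?_
  rw [Lg0 (GG_pi hφ)]
  have hpi : (π : ℂ) ≠ 0 := by exact_mod_cast Real.pi_ne_zero
  field_simp

/-- the difference -/
noncomputable def DD (φ : ℂ) : ℂ := sg 0 φ - sf φ

theorem DD_der (h : S_SGP) {φ : ℂ} (hφ : φ ∈ GG) : HasDerivAt DD 0 φ := by
  have h1 := (sg0_der h hφ).sub (sf_der (GG_pi hφ))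
  rw [sub_self] at h1
  exact h1

theorem DD_seg (h : S_SGP) {a b : ℂ} (hs : segment ℝ a b ⊆ GG) : DD b = DD a := by
  have h1 := (convex_segment a b).norm_image_sub_le_of_norm_hasDerivWithin_le (𝕜 := ℂ) (f := DD)
    (f' := fun _ => 0) (C := 0) (s := segment ℝ a b)
    (fun x hx => (DD_der h (hs hx)).hasDerivWithinAt) (fun x _ => by simp)
    (left_mem_segment ℝ a b) (right_mem_segment ℝ a b)
  rw [zero_mul] at h1
  have h2 := norm_le_zero_iff.mp h1
  exact sub_eq_zero.mp h2

theorem GG_hor {φ : ℂ} (hφ : φ ∈ GG) : segment ℝ (φ.im * Complex.I) φ ⊆ GG := by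
  intro z hz
  rw [segment_eq_image] at hz
  obtain ⟨t, ht, rfl⟩ := hz
  have e1 : ((1 - t) • ((φ.im : ℂ) * Complex.I) + t • φ).re = t * φ.re := by simp
  have e2 : ((1 - t) • ((φ.im : ℂ) * Complex.I) + t • φ).im = φ.im := by
    simp; ring
  obtain ⟨h1, h2, h3, h4⟩ := hφ
  refine ⟨?_, ?_, ?_, ?_⟩
  · rw [e1, abs_mul, abs_of_nonneg ht.1]
    have := abs_nonneg φ.re
    nlinarith [ht.2]
  · rw [e2]; exact h2
  · rw [e2]; exact h3
  · rw [e1, e2]
    have hpi := Real.pi_gt_three
    have h5 : Real.cos φ.re ≤ Real.cos (t * φ.re) := by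
      rw [← Real.cos_abs φ.re, ← Real.cos_abs (t * φ.re)]
      apply Real.cos_le_cos_of_nonneg_of_le_pi (abs_nonneg _) (by linarith)
      rw [abs_mul, abs_of_nonneg ht.1]
      have := abs_nonneg φ.re
      nlinarith [ht.2]
    have h6 := Real.cosh_pos φ.im
    have := mul_le_mul_of_nonneg_right h5 h6.le
    linarith

theorem GG_ver {a b : ℝ} (ha : 0 < a) (hab : a ≤ b) (hb : b < 39 / 20) :
    segment ℝ (a * Complex.I) (b * Complex.I) ⊆ GG := by
  intro z hz
  rw [segment_eq_image] at hz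
  obtain ⟨t, ht, rfl⟩ := hz
  have e1 : ((1 - t) • ((a : ℂ) * Complex.I) + t • ((b : ℂ) * Complex.I)).re = 0 := by simp
  have e2 : ((1 - t) • ((a : ℂ) * Complex.I) + t • ((b : ℂ) * Complex.I)).im = (1 - t) * a + t * b := by
    simp
  refine ⟨?_, ?_, ?_, ?_⟩
  · rw [e1]; norm_num
  · rw [e2]; nlinarith [ht.1, ht.2]
  · rw [e2]; nlinarith [ht.1, ht.2]
  · rw [e1, e2, Real.cos_zero, one_mul]
    have := Real.cosh_pos ((1 - t) * a + t * b)
    linarith

/-! ### the value at zero -/

theorem cos_slit {w : ℂ} (h : |w.re| < π / 2) : 2 * Complex.cos w ∈ Complex.slitPlane := by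
  left
  have : (2 * Complex.cos w).re = 2 * (Complex.cos w).re := by simp
  rw [this, cosre]
  have := mul_pos (cospos h) (Real.cosh_pos w.im)
  linarith

theorem LL_der {w : ℂ} (h : |w.re| < π / 2) : HasDerivAt LL (Complex.log (2 * Complex.cos w)) w := by
  apply star_prim (f := fun w => Complex.log (2 * Complex.cos w)) (StU_open _) (StU_star _) _ h
  intro z hz
  exact (((Complex.hasDerivAt_cos z).const_mul 2).clog (cos_slit hz)).differentiableAt.differentiableWithinAt

theorem LL_real {a : ℝ} (ha : 0 < a) (h : a < π / 2) :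
    LL a = ((∫ t in (0:ℝ)..a, Real.log (2 * Real.cos t) : ℝ) : ℂ) := by
  unfold LL
  have e : ∫ t in (0:ℝ)..1, Complex.log (2 * Complex.cos (t * (a : ℂ))) =
      ((∫ t in (0:ℝ)..1, Real.log (2 * Real.cos (t * a)) : ℝ) : ℂ) := by
    rw [← intervalIntegral.integral_ofReal]
    apply intervalIntegral.integral_congr
    intro t ht
    rw [uIcc_of_le zero_le_one] at ht
    show Complex.log (2 * Complex.cos (t * (a : ℂ))) = (Real.log (2 * Real.cos (t * a)) : ℂ)
    have h1 : 0 ≤ Real.cos (t * a) := by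
      apply Real.cos_nonneg_of_neg_pi_div_two_le_of_le
      · nlinarith [ht.1, ht.2, Real.pi_pos]
      · nlinarith [ht.1, ht.2, Real.pi_pos]
    rw [Complex.ofReal_log (by linarith)]
    push_cast
    rfl
  rw [e, ← Complex.ofReal_mul]
  congr 1
  have := intervalIntegral.mul_integral_comp_mul_right (a := 0) (b := 1)
    (f := fun t => Real.log (2 * Real.cos t)) a
  rw [this]
  simp

theorem LS_real {a : ℝ} (ha : 0 < a) (h : a < π) :
    LS a = ((∫ t in (0:ℝ)..a, Real.log (2 * Real.sin t) : ℝ) : ℂ) := by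
  unfold LS
  have e : ∫ t in (0:ℝ)..1, Complex.log (2 * Complex.sin (t * (a : ℂ))) =
      ((∫ t in (0:ℝ)..1, Real.log (2 * Real.sin (t * a)) : ℝ) : ℂ) := by
    rw [← intervalIntegral.integral_ofReal]
    apply intervalIntegral.integral_congr
    intro t ht
    rw [uIcc_of_le zero_le_one] at ht
    show Complex.log (2 * Complex.sin (t * (a : ℂ))) = (Real.log (2 * Real.sin (t * a)) : ℂ)
    have h1 : 0 ≤ Real.sin (t * a) := by
      apply Real.sin_nonneg_of_nonneg_of_le_pi
      · nlinarith [ht.1, ht.2, Real.pi_pos]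
      · nlinarith [ht.1, ht.2, Real.pi_pos]
    rw [Complex.ofReal_log (by linarith)]
    push_cast
    rfl
  rw [e, ← Complex.ofReal_mul]
  congr 1
  have := intervalIntegral.mul_integral_comp_mul_right (a := 0) (b := 1)
    (f := fun t => Real.log (2 * Real.sin t)) a
  rw [this]
  simp

theorem int_ls (a b : ℝ) : IntervalIntegrable (fun t => Real.log (2 * Real.sin t)) volume a b := by
  have : MeromorphicOn (fun t : ℝ => 2 * Real.sin t) (uIcc a b) :=
    ((analyticOnNhd_const (v := (2:ℝ))).mul Real.analyticOnNhd_sin).meromorphicOn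
  exact this.intervalIntegrable_log

theorem int_lc (a b : ℝ) : IntervalIntegrable (fun t => Real.log (2 * Real.cos t)) volume a b := by
  have : MeromorphicOn (fun t : ℝ => 2 * Real.cos t) (uIcc a b) :=
    ((analyticOnNhd_const (v := (2:ℝ))).mul Real.analyticOnNhd_cos).meromorphicOn
  exact this.intervalIntegrable_log

/-- the integral of `log (2 sin t)` up to `π / 4` -/
noncomputable def IS : ℝ := ∫ t in (0:ℝ)..(π / 4), Real.log (2 * Real.sin t)

/-- the integral of `log (2 cos t)` up to `π / 4` -/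
noncomputable def IC : ℝ := ∫ t in (0:ℝ)..(π / 4), Real.log (2 * Real.cos t)

theorem sc_pos {t : ℝ} (h0 : 0 < t) (h1 : t < π / 2) : 0 < Real.sin t ∧ 0 < Real.cos t :=
  ⟨Real.sin_pos_of_pos_of_lt_pi h0 (by linarith [Real.pi_pos]),
    Real.cos_pos_of_mem_Ioo ⟨by linarith, h1⟩⟩

theorem IS_add_IC : IS + IC = 0 := by
  unfold IS IC
  rw [← intervalIntegral.integral_add (int_ls _ _) (int_lc _ _)]
  have h1 : ∫ t in (0:ℝ)..(π / 4), (Real.log (2 * Real.sin t) + Real.log (2 * Real.cos t)) =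
      ∫ t in (0:ℝ)..(π / 4), (Real.log 2 + Real.log (Real.sin (2 * t))) := by
    apply intervalIntegral.integral_congr_ae
    refine Eventually.of_forall fun t ht => ?_
    rw [uIoc_of_le (by linarith [Real.pi_pos])] at ht
    obtain ⟨hs, hc⟩ := sc_pos ht.1 (by linarith [Real.pi_pos, ht.2])
    rw [← Real.log_mul (by positivity) (by positivity), ← Real.log_mul (by norm_num), Real.sin_two_mul]
    · congr 1; ring
    · rw [Real.sin_two_mul]; positivity
  have h2 : IntervalIntegrable (fun t => Real.log (Real.sin (2 * t))) volume 0 (π / 4) := by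
    have : MeromorphicOn (fun t : ℝ => Real.sin (2 * t)) (uIcc 0 (π / 4)) := by
      intro x _
      have : AnalyticAt ℝ (fun t : ℝ => Real.sin (2 * t)) x := by fun_prop
      exact this.meromorphicAt
    exact this.intervalIntegrable_log
  rw [h1, intervalIntegral.integral_add intervalIntegrable_const h2, intervalIntegral.integral_const]
  have h3 := intervalIntegral.integral_comp_mul_left (a := 0) (b := π / 4)
    (f := fun x => Real.log (Real.sin x)) (c := 2) two_ne_zero
  rw [h3, show (2 : ℝ) * (π / 4) = π / 2 by ring, mul_zero, integral_log_sin_zero_pi_div_two]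
  simp
  ring

theorem bet_eq : bet = -(4 / π) * IS := rfl

/-! ### the imaginary axis -/

/-- the angle -/
noncomputable def Aa (η : ℝ) : ℝ := Real.arctan (Real.cosh (η / 2))

theorem Aa_cont : Continuous Aa := by unfold Aa; fun_prop

theorem Aa_zero : Aa 0 = π / 4 := by
  unfold Aa; simp

theorem Aa_pos (η : ℝ) : 0 < Aa η := by
  unfold Aa; exact Real.arctan_pos.mpr (Real.cosh_pos _)

theorem Aa_lt (η : ℝ) : Aa η < π / 2 := Real.arctan_lt_pi_div_two _

/-- the primitive -/
noncomputable def JS (a : ℝ) : ℝ := ∫ t in (0:ℝ)..a, Real.log (2 * Real.sin t)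

theorem JS_cont : Continuous JS := intervalIntegral.continuous_primitive int_ls 0

/-- the value on the imaginary axis -/
noncomputable def KK (η : ℝ) : ℂ := (LL (Aa η) + LL (Aa η)) / π +
  (LL (Aa η + (η / 2 : ℝ) * Complex.I) + LL (Aa η - (η / 2 : ℝ) * Complex.I)) / π - 4 * ((JS (Aa η) : ℝ) / π)

theorem pi_dst (η : ℝ) : π * dst 0 (η * Complex.I) = Aa η := by
  rw [dst0]
  have hpi : (π : ℂ) ≠ 0 := by exact_mod_cast Real.pi_ne_zero
  have e1 : Complex.cos (η * Complex.I / 2) = ((Real.cosh (η / 2) : ℝ) : ℂ) := by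
    rw [show (η : ℂ) * Complex.I / 2 = ((η / 2 : ℝ) : ℂ) * Complex.I by push_cast; ring,
      Complex.cos_mul_I]
    push_cast
    rfl
  rw [e1, ← Complex.ofReal_arctan]
  unfold Aa
  field_simp

theorem sg_im (η : ℝ) : sg 0 (η * Complex.I) = KK η := by
  unfold sg TH RR KK
  rw [pi_dst, LS_real (Aa_pos η) (by linarith [Aa_lt η, Real.pi_pos])]
  have e1 : (η : ℂ) * Complex.I / 2 = ((η / 2 : ℝ) : ℂ) * Complex.I := by push_cast; ring
  rw [e1]
  simp only [zero_div, add_zero, sub_zero]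
  rfl

theorem LL_cont {w : ℂ} (h : |w.re| < π / 2) : ContinuousAt LL w := (LL_der h).continuousAt

theorem KK_cont : ContinuousAt KK 0 := by
  have hA : ContinuousAt (fun η : ℝ => (Aa η : ℂ)) 0 :=
    (Complex.continuous_ofReal.comp Aa_cont).continuousAt
  have hI : ContinuousAt (fun η : ℝ => ((η / 2 : ℝ) : ℂ) * Complex.I) 0 := by fun_prop
  have h0 : |((Aa 0 : ℝ) : ℂ).re| < π / 2 := by
    rw [Complex.ofReal_re, abs_of_pos (Aa_pos 0)]; exact Aa_lt 0
  have h1 : ContinuousAt (fun η : ℝ => LL (Aa η)) 0 :=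
    ContinuousAt.comp (f := fun η : ℝ => (Aa η : ℂ)) (g := LL) (LL_cont h0) hA
  have h2 : ContinuousAt (fun η : ℝ => LL (Aa η + (η / 2 : ℝ) * Complex.I)) 0 := by
    apply ContinuousAt.comp (f := fun η : ℝ => (Aa η : ℂ) + ((η / 2 : ℝ) : ℂ) * Complex.I) (g := LL)
      _ (hA.add hI)
    apply LL_cont
    simpa using h0
  have h3 : ContinuousAt (fun η : ℝ => LL (Aa η - (η / 2 : ℝ) * Complex.I)) 0 := by
    apply ContinuousAt.comp (f := fun η : ℝ => (Aa η : ℂ) - ((η / 2 : ℝ) : ℂ) * Complex.I) (g := LL)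
      _ (hA.sub hI)
    apply LL_cont
    simpa using h0
  have h4 : ContinuousAt (fun η : ℝ => ((JS (Aa η) : ℝ) : ℂ)) 0 :=
    (Complex.continuous_ofReal.comp (JS_cont.comp Aa_cont)).continuousAt
  unfold KK
  exact (((h1.add h1).div_const _).add ((h2.add h3).div_const _)).sub
    (continuousAt_const.mul (h4.div_const _))

theorem KK_zero : KK 0 = (2 * bet : ℝ) := by
  unfold KK
  rw [Aa_zero]
  have h1 := LL_real (a := π / 4) (by positivity) (by linarith [Real.pi_pos])
  have h2 : JS (π / 4) = IS := rfl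
  have h3 : LL ((π / 4 : ℝ) : ℂ) = ((IC : ℝ) : ℂ) := h1
  have h4 : IC = -IS := by linarith [IS_add_IC]
  simp only [zero_div, Complex.ofReal_zero, zero_mul, add_zero, sub_zero]
  rw [h3, h2, bet_eq, h4]
  push_cast
  ring

theorem sf_zero : sf 0 = (2 * bet : ℝ) := by
  have := sf_real (x := 0) (by simp [Real.pi_pos])
  rw [Complex.ofReal_zero] at this
  rw [this]
  unfold sx
  simp

theorem sg_eq (h : S_SGP) {φ : ℂ} (hφ : φ ∈ GG) : sg 0 φ = sf φ := by
  have hY : 0 < φ.im := hφ.2.1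
  have hY2 : φ.im < 39 / 20 := hφ.2.2.1
  have h1 : DD φ = DD (φ.im * Complex.I) := DD_seg h (GG_hor hφ)
  have h2 : ∀ η : ℝ, 0 < η → η ≤ φ.im → DD (η * Complex.I) = DD φ := by
    intro η h0 hη
    rw [h1]
    exact (DD_seg h (GG_ver h0 hη hY2)).symm
  have h3 : Tendsto (fun η : ℝ => KK η - sf (η * Complex.I)) (𝓝[>] 0) (𝓝 (KK 0 - sf 0)) := by
    have c1 : ContinuousAt (fun η : ℝ => sf (η * Complex.I)) 0 := by
      apply ContinuousAt.comp (f := fun η : ℝ => (η : ℂ) * Complex.I) (g := sf)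
      · apply (sf_der _).continuousAt
        simp [Real.pi_pos]
      · fun_prop
    have c2 : Tendsto (fun η : ℝ => KK η - Pool.Agent.N561.sf (η * Complex.I)) (𝓝 0)
        (𝓝 (KK 0 - Pool.Agent.N561.sf (((0 : ℝ) : ℂ) * Complex.I))) := (KK_cont.sub c1).tendsto
    simp only [Complex.ofReal_zero, zero_mul] at c2
    exact c2.mono_left nhdsWithin_le_nhds
  have h4 : Tendsto (fun η : ℝ => KK η - sf (η * Complex.I)) (𝓝[>] 0) (𝓝 (DD φ)) := by
    apply tendsto_const_nhds.congr'
    have : Ioc (0:ℝ) φ.im ∈ 𝓝[>] (0:ℝ) := Ioc_mem_nhdsGT hY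
    filter_upwards [this] with η hη
    rw [← h2 η hη.1 hη.2, ← sg_im]
    rfl
  have h5 := tendsto_nhds_unique h4 h3
  rw [KK_zero, sf_zero, sub_self] at h5
  exact sub_eq_zero.mp h5

/-! ### the lower bound -/

theorem gr_der {x : ℝ} (h : |x| < π / 2) : HasDerivAt gr (1 / Real.cos x) x := by
  have h1 : HasDerivAt gdi (1 / Complex.cos x) (x : ℂ) := gdi_der (by simpa using h)
  have h2 := h1.real_of_complex
  have h3 : (fun x : ℝ => (gdi x).re) =ᶠ[𝓝 x] gr := by
    have : {y : ℝ | |y| < π / 2} ∈ 𝓝 x := (isOpen_lt continuous_abs continuous_const).mem_nhds h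
    filter_upwards [this] with y hy
    rw [gdi_gr hy, Complex.ofReal_re]
  have h4 := h2.congr_of_eventuallyEq h3.symm
  refine h4.congr_deriv ?_
  rw [← Complex.ofReal_cos, ← Complex.ofReal_one, ← Complex.ofReal_div, Complex.ofReal_re]

theorem gr_zero : gr 0 = 0 := by unfold gr; simp

theorem gr_contOn {c : ℝ} (hc : c < π / 2) : ContinuousOn gr (Icc 0 c) := fun x hx =>
  (gr_der (by rw [abs_of_nonneg hx.1]; linarith [hx.2])).continuousAt.continuousWithinAt

theorem gr_mono {x y : ℝ} (hx : 0 ≤ x) (hxy : x ≤ y) (hy : y < π / 2) : gr x ≤ gr y := by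
  have : MonotoneOn gr (Icc 0 y) := by
    apply monotoneOn_of_deriv_nonneg (convex_Icc 0 y) (gr_contOn hy)
    · intro t ht
      rw [interior_Icc] at ht
      exact (gr_der (by rw [abs_of_pos ht.1]; linarith [ht.2])).differentiableAt.differentiableWithinAt
    · intro t ht
      rw [interior_Icc] at ht
      rw [(gr_der (by rw [abs_of_pos ht.1]; linarith [ht.2])).deriv]
      have := (sc_pos ht.1 (by linarith [ht.2])).2
      positivity
  exact this ⟨hx, hxy⟩ ⟨by linarith, le_rfl⟩ hxy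

theorem gr_nonneg {x : ℝ} (hx : 0 ≤ x) (hy : x < π / 2) : 0 ≤ gr x := by
  have := gr_mono le_rfl hx hy
  rwa [gr_zero] at this

theorem gr_convex {c : ℝ} (hc : c < π / 2) : ConvexOn ℝ (Icc 0 c) gr := by
  apply MonotoneOn.convexOn_of_deriv (convex_Icc 0 c) (gr_contOn hc)
  · intro t ht
    rw [interior_Icc] at ht
    exact (gr_der (by rw [abs_of_pos ht.1]; linarith [ht.2])).differentiableAt.differentiableWithinAt
  · intro x hx y hy hxy
    rw [interior_Icc] at hx hy
    rw [(gr_der (by rw [abs_of_pos hx.1]; linarith [hx.2])).deriv,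
      (gr_der (by rw [abs_of_pos hy.1]; linarith [hy.2])).deriv]
    have h1 := (sc_pos hx.1 (by linarith [hx.2])).2
    have h2 := (sc_pos hy.1 (by linarith [hy.2])).2
    apply one_div_le_one_div_of_le h2
    exact Real.cos_le_cos_of_nonneg_of_le_pi hx.1.le (by linarith [hy.2, Real.pi_pos]) hxy

theorem gr_int {a b : ℝ} (ha : 0 ≤ a) (hab : a ≤ b) (hb : b < π / 2) :
    IntervalIntegrable gr volume a b := by
  apply ContinuousOn.intervalIntegrable
  rw [uIcc_of_le hab]
  exact (gr_contOn hb).mono (Icc_subset_Icc_left ha)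

theorem HH_le {c : ℝ} (h0 : 0 ≤ c) (hc : c < π / 2) : ∫ t in (0:ℝ)..c, gr t ≤ c / 2 * gr c := by
  have e1 := intervalIntegral.mul_integral_comp_mul_right (a := 0) (b := 1) (f := gr) c
  rw [zero_mul, one_mul] at e1
  rw [← e1]
  have hco : ContinuousOn (fun x => gr (x * c)) (Icc 0 1) := by
    apply (gr_contOn hc).comp (by fun_prop)
    intro t ht
    exact ⟨mul_nonneg ht.1 h0, by nlinarith [ht.2]⟩
  have e2 : ∫ x in (0:ℝ)..1, gr (x * c) ≤ ∫ x in (0:ℝ)..1, x * gr c := by
    apply intervalIntegral.integral_mono_on zero_le_one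
    · apply ContinuousOn.intervalIntegrable
      rw [uIcc_of_le zero_le_one]
      exact hco
    · exact (by fun_prop : Continuous fun x : ℝ => x * gr c).intervalIntegrable _ _
    · intro t ht
      have m1 : (0 : ℝ) ∈ Icc (0:ℝ) c := ⟨le_rfl, h0⟩
      have m2 : c ∈ Icc (0:ℝ) c := ⟨h0, le_rfl⟩
      have m3 : 0 ≤ 1 - t := by linarith [ht.2]
      have m4 : (1 - t) + t = 1 := by ring
      have := (gr_convex hc).2 m1 m2 m3 ht.1 m4
      simpa [gr_zero] using this
  have e3 : ∫ x in (0:ℝ)..1, x * gr c = gr c / 2 := by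
    rw [intervalIntegral.integral_mul_const, integral_id]
    ring
  rw [e3] at e2
  have := mul_le_mul_of_nonneg_left e2 h0
  linarith

theorem k_eq {u : ℝ} (h0 : 0 < u) (h1 : u ≤ π / 4) :
    Real.log (2 * Real.cos u) - Real.log (2 * Real.sin u) = gr (π / 2 - 2 * u) := by
  obtain ⟨hs, hc⟩ := sc_pos h0 (by linarith [Real.pi_pos])
  unfold gr
  rw [← Real.log_div (by positivity) (by positivity), Real.sin_pi_div_two_sub,
    Real.cos_pi_div_two_sub, Real.sin_two_mul, Real.cos_two_mul]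
  congr 1
  field_simp
  ring

theorem bet_ineq : ∫ t in (0:ℝ)..(33 / 32), gr t ≤ π / 2 * bet := by
  have hp := Real.pi_gt_d2
  have hc : (33 / 32 : ℝ) < π / 2 := by linarith
  set c : ℝ := 33 / 32 with hcdef
  set u : ℝ := π / 4 - c / 2 with hu
  have hu0 : 0 < u := by rw [hu]; linarith
  have e1 : π / 2 * bet = ∫ t in (0:ℝ)..(π / 4), (Real.log (2 * Real.cos t) - Real.log (2 * Real.sin t)) := by
    rw [intervalIntegral.integral_sub (int_lc _ _) (int_ls _ _)]
    show π / 2 * bet = IC - IS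
    rw [bet_eq]
    have := IS_add_IC
    have hpi := Real.pi_pos
    field_simp
    linarith
  have e2 : ∫ t in (0:ℝ)..(π / 4), (Real.log (2 * Real.cos t) - Real.log (2 * Real.sin t)) =
      (∫ t in (0:ℝ)..u, (Real.log (2 * Real.cos t) - Real.log (2 * Real.sin t))) +
      ∫ t in u..(π / 4), (Real.log (2 * Real.cos t) - Real.log (2 * Real.sin t)) :=
    (intervalIntegral.integral_add_adjacent_intervals ((int_lc _ _).sub (int_ls _ _))
      ((int_lc _ _).sub (int_ls _ _))).symm
  have e3 : ∫ t in u..(π / 4), (Real.log (2 * Real.cos t) - Real.log (2 * Real.sin t)) =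
      1 / 2 * ∫ t in (0:ℝ)..c, gr t := by
    have : ∫ t in u..(π / 4), (Real.log (2 * Real.cos t) - Real.log (2 * Real.sin t)) =
        ∫ t in u..(π / 4), gr (π / 2 - 2 * t) := by
      apply intervalIntegral.integral_congr
      intro t ht
      rw [uIcc_of_le (by rw [hu]; linarith)] at ht
      exact k_eq (by linarith [ht.1]) ht.2
    rw [this, intervalIntegral.integral_comp_sub_mul gr two_ne_zero]
    rw [show π / 2 - 2 * (π / 4) = 0 by ring, show π / 2 - 2 * u = c by rw [hu]; ring]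
    simp
  have e4 : u * gr c ≤ ∫ t in (0:ℝ)..u, (Real.log (2 * Real.cos t) - Real.log (2 * Real.sin t)) := by
    have : u * gr c = ∫ _t in (0:ℝ)..u, gr c := by
      rw [intervalIntegral.integral_const]; simp
    rw [this]
    apply intervalIntegral.integral_mono_on_of_le_Ioo hu0.le intervalIntegrable_const
      ((int_lc _ _).sub (int_ls _ _))
    intro t ht
    rw [k_eq ht.1 (by linarith [ht.2])]
    apply gr_mono (by rw [hcdef]; norm_num)
    · have := ht.2
      rw [hu] at this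
      linarith
    · linarith [ht.1]
  have e5 := HH_le (c := c) (by rw [hcdef]; norm_num) hc
  have e6 := gr_nonneg (x := c) (by rw [hcdef]; norm_num) hc
  have e7 : c / 4 ≤ u := by rw [hu, hcdef]; linarith
  have e8 := mul_le_mul_of_nonneg_right e7 e6
  rw [e1, e2, e3]
  linarith

theorem sx_even {x : ℝ} (h : |x| < π) : sx (-x) = sx x := by
  have h1 := sf_real h
  have h2 := sf_real (x := -x) (by rwa [abs_neg])
  have h3 := sf_even (φ := (x : ℂ)) (by simpa using h)
  rw [← Complex.ofReal_neg, h2, h1] at h3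
  exact_mod_cast h3

theorem sx_ge' {x : ℝ} (h0 : 0 ≤ x) (h : x ≤ 33 / 16) : bet ≤ sx x := by
  have hp := Real.pi_gt_d2
  have hc : (33 / 32 : ℝ) < π / 2 := by linarith
  have e1 : ∫ t in (0:ℝ)..(33 / 32), gr t = (∫ t in (0:ℝ)..(x / 2), gr t) +
      ∫ t in (x / 2)..(33 / 32), gr t :=
    (intervalIntegral.integral_add_adjacent_intervals (gr_int le_rfl (by linarith) (by linarith))
      (gr_int (by linarith) (by linarith) (by linarith))).symm
  have e2 : 0 ≤ ∫ t in (x / 2)..(33 / 32), gr t := by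
    apply intervalIntegral.integral_nonneg (by linarith)
    intro t ht
    exact gr_nonneg (by linarith [ht.1]) (by linarith [ht.2])
  have e3 := bet_ineq
  have e4 : ∫ t in (0:ℝ)..(x / 2), gr t ≤ π / 2 * bet := by linarith
  have e5 : sx x = 2 * bet - 2 / π * ∫ t in (0:ℝ)..(x / 2), gr t := rfl
  rw [e5]
  have e6 : 2 / π * ∫ t in (0:ℝ)..(x / 2), gr t ≤ 2 / π * (π / 2 * bet) :=
    mul_le_mul_of_nonneg_left e4 (by positivity)
  have e7 : 2 / π * (π / 2 * bet) = bet := by
    have := Real.pi_pos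
    field_simp
  linarith

theorem sx_ge {x : ℝ} (h : |x| ≤ 33 / 16) : bet ≤ sx x := by
  have hp := Real.pi_gt_d2
  rcases le_total 0 x with h0 | h0
  · rw [abs_of_nonneg h0] at h
    exact sx_ge' h0 h
  · have h1 := sx_even (x := x) (by linarith)
    rw [abs_of_nonpos h0] at h
    rw [← h1]
    exact sx_ge' (by linarith) h

theorem sf_ge {φ : ℂ} (hφ : φ ∈ GG) : bet ≤ (sf φ).re := by
  have hp := Real.pi_gt_d2
  rw [sf_re (GG_pi hφ)]
  have h1 := sx_ge (x := φ.re) hφ.1.le
  have h2 : 0 ≤ ∫ y in (0:ℝ)..φ.im, Real.arctan (Real.sinh (y / 2) / Real.cos (φ.re / 2)) := by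
    apply intervalIntegral.integral_nonneg hφ.2.1.le
    intro y hy
    apply Real.arctan_nonneg.mpr
    apply div_nonneg
    · exact Real.sinh_nonneg_iff.mpr (by linarith [hy.1])
    · apply Real.cos_nonneg_of_neg_pi_div_two_le_of_le
      · have := (abs_lt.mp hφ.1).1; linarith
      · have := (abs_lt.mp hφ.1).2; linarith
  have h3 : 0 ≤ 1 / π * ∫ y in (0:ℝ)..φ.im, Real.arctan (Real.sinh (y / 2) / Real.cos (φ.re / 2)) :=
    mul_nonneg (by positivity) h2
  linarith

/-- job A7 -/
theorem sf (h : S_SGP) : S_SF := by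
  refine ⟨fun w hw => ⟨gdi_der hw, gdi_re hw, gdi_im hw⟩,
    fun φ hφ => ⟨sf_der hφ, sf_even hφ, sf_re hφ⟩, fun x hx => ⟨sf_real hx, sx_der hx⟩,
    fun φ hφ => sg_eq h hφ, fun φ hφ => ?_⟩
  rw [sg_eq h hφ]
  exact sf_ge hφ

end Pool.Agent.N218.VS
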